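import Pool.Agent.helper3.XT.Spec

set_option autoImplicit false

namespace Pool.Agent.XT

open Finset SimpleGraph

theorem WGR_roots {F : Type} [Field F] (h2 : (2 : F) ≠ 0) (A0 A1 A2 z r p : F) (h01 : A0 ≠ A1)
    (h02 : A0 ≠ A2) (h12 : A1 ≠ A2) (e0 : z + 2 * r * A0 + p * A0 ^ 2 = 0)
    (e1 : z + 2 * r * A1 + p * A1 ^ 2 = 0) (e2 : z + 2 * r * A2 + p * A2 ^ 2 = 0) :
    p = 0 ∧ r = 0 ∧ z = 0 := by
  have k1 : (A0 - A1) * (2 * r + p * (A0 + A1)) = 0 := by linear_combination e0 - e1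
  have k2 : (A0 - A2) * (2 * r + p * (A0 + A2)) = 0 := by linear_combination e0 - e2
  have k3 := (mul_eq_zero.1 k1).resolve_left (sub_ne_zero.2 h01)
  have k4 := (mul_eq_zero.1 k2).resolve_left (sub_ne_zero.2 h02)
  have k5 : (A1 - A2) * p = 0 := by linear_combination k3 - k4
  have hp : p = 0 := (mul_eq_zero.1 k5).resolve_left (sub_ne_zero.2 h12)
  subst hp
  have k6 : 2 * r = 0 := by linear_combination k3
  have hr : r = 0 := (mul_eq_zero.1 k6).resolve_left h2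
  subst hr
  exact ⟨rfl, rfl, by linear_combination e0⟩

theorem WGR : WGR_stmt := by
  intro F _ h2 a b x hab hx hI
  -- coordinates
  have hb12 : b 1 ≠ b 2 := fun h => by
    have := hab (a₁ := Sum.inr 1) (a₂ := Sum.inr 2) h
    simp at this
  have hb01 : b 1 ≠ b 0 := fun h => by
    have := hab (a₁ := Sum.inr 1) (a₂ := Sum.inr 0) h
    simp at this
  have hb02 : b 2 ≠ b 0 := fun h => by
    have := hab (a₁ := Sum.inr 2) (a₂ := Sum.inr 0) h
    simp at this
  have hane : ∀ i j, a i ≠ b j := fun i j h => by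
    have := hab (a₁ := Sum.inl i) (a₂ := Sum.inr j) h
    simp at this
  have hs : ∀ i j, (a i).2.1 - (b j).2.1 = -((x (i, j)).1 * ((a i).1 - (b j).1)) := by
    intro i j
    obtain ⟨⟨h1, h3⟩, h4, h5⟩ := hI i j
    linear_combination h4 - h1
  have ht : ∀ i j, (a i).2.2 - (b j).2.2 = (x (i, j)).1 ^ 2 * ((a i).1 - (b j).1) := by
    intro i j
    obtain ⟨⟨h1, h3⟩, h4, h5⟩ := hI i j
    have := hs i j
    linear_combination h5 - h3 - (x (i, j)).1 * this
  have hd : ∀ i j, (a i).1 - (b j).1 ≠ 0 := by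
    intro i j h
    apply hane i j
    have e1 := hs i j
    have e2 := ht i j
    rw [h] at e1 e2
    refine Prod.ext (sub_eq_zero.1 h) (Prod.ext ?_ ?_)
    · linear_combination e1
    · linear_combination e2
  have hA : ∀ i i', i ≠ i' → (x (i, 0)).1 ≠ (x (i', 0)).1 := by
    intro i i' hii h
    apply hii
    have e : x (i, 0) = x (i', 0) := by
      obtain ⟨-, h4, h5⟩ := hI i 0
      obtain ⟨-, h6, h7⟩ := hI i' 0
      refine Prod.ext h (Prod.ext ?_ ?_)
      · rw [h4, h6, h]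
      · rw [h5, h7, h]
    have := hx e
    exact congrArg Prod.fst this
  -- Q
  have hQ : ∀ i j, ((b j).1 - (b 0).1) * ((b j).2.2 - (b 0).2.2) - ((b j).2.1 - (b 0).2.1) ^ 2 =
      ((a i).1 - (b 0).1) * (((b j).2.2 - (b 0).2.2) + 2 * ((b j).2.1 - (b 0).2.1) * (x (i, 0)).1 +
        ((b j).1 - (b 0).1) * (x (i, 0)).1 ^ 2) := by
    intro i j
    have e1 := hs i j
    have e2 := ht i j
    have e3 := hs i 0
    have e4 := ht i 0
    have q : ((a i).1 - (b j).1) * ((a i).2.2 - (b j).2.2) - ((a i).2.1 - (b j).2.1) ^ 2 = 0 := by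
      rw [e1, e2]; ring
    have f1 : (a i).2.1 = (b 0).2.1 - (x (i, 0)).1 * ((a i).1 - (b 0).1) := by
      linear_combination e3
    have f2 : (a i).2.2 = (b 0).2.2 + (x (i, 0)).1 ^ 2 * ((a i).1 - (b 0).1) := by
      linear_combination e4
    rw [f1, f2] at q
    linear_combination q
  set p1 := (b 1).1 - (b 0).1 with hp1
  set r1 := (b 1).2.1 - (b 0).2.1 with hr1
  set z1 := (b 1).2.2 - (b 0).2.2 with hz1
  set p2 := (b 2).1 - (b 0).1 with hp2
  set r2 := (b 2).2.1 - (b 0).2.1 with hr2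
  set z2 := (b 2).2.2 - (b 0).2.2 with hz2
  have hQ1 : ∀ i, p1 * z1 - r1 ^ 2 = ((a i).1 - (b 0).1) * (z1 + 2 * r1 * (x (i, 0)).1 +
      p1 * (x (i, 0)).1 ^ 2) := fun i => hQ i 1
  have hQ2 : ∀ i, p2 * z2 - r2 ^ 2 = ((a i).1 - (b 0).1) * (z2 + 2 * r2 * (x (i, 0)).1 +
      p2 * (x (i, 0)).1 ^ 2) := fun i => hQ i 2
  by_cases h0 : p1 * z1 - r1 ^ 2 = 0
  · have g : ∀ i, z1 + 2 * r1 * (x (i, 0)).1 + p1 * (x (i, 0)).1 ^ 2 = 0 := by
      intro i
      have := hQ1 i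
      rw [h0] at this
      exact (mul_eq_zero.1 this.symm).resolve_left (hd i 0)
    obtain ⟨e1, e2, e3⟩ := WGR_roots h2 _ _ _ z1 r1 p1 (hA 0 1 (by decide)) (hA 0 2 (by decide))
      (hA 1 2 (by decide)) (g 0) (g 1) (g 2)
    apply hb01
    exact Prod.ext (sub_eq_zero.1 e1) (Prod.ext (sub_eq_zero.1 e2) (sub_eq_zero.1 e3))
  · set Q1 := p1 * z1 - r1 ^ 2 with hQQ1
    set Q2 := p2 * z2 - r2 ^ 2 with hQQ2
    have g : ∀ i, (Q2 * z1 - Q1 * z2) + 2 * (Q2 * r1 - Q1 * r2) * (x (i, 0)).1 +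
        (Q2 * p1 - Q1 * p2) * (x (i, 0)).1 ^ 2 = 0 := by
      intro i
      have e1 := hQ1 i
      have e2 := hQ2 i
      have e3 : ((a i).1 - (b 0).1) * ((Q2 * z1 - Q1 * z2) + 2 * (Q2 * r1 - Q1 * r2) * (x (i, 0)).1 +
        (Q2 * p1 - Q1 * p2) * (x (i, 0)).1 ^ 2) = 0 := by
        linear_combination Q1 * e2 - Q2 * e1
      exact (mul_eq_zero.1 e3).resolve_left (hd i 0)
    obtain ⟨e1, e2, e3⟩ := WGR_roots h2 _ _ _ _ _ _ (hA 0 1 (by decide)) (hA 0 2 (by decide))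
      (hA 1 2 (by decide)) (g 0) (g 1) (g 2)
    -- Q1^2 Q2 = Q2^2 Q1
    have k : Q1 * Q2 * (Q1 - Q2) = 0 := by
      have k1 : Q1 ^ 2 * Q2 = Q2 ^ 2 * Q1 := by
        have s1 : Q1 * p2 = Q2 * p1 := by linear_combination -e1
        have s2 : Q1 * r2 = Q2 * r1 := by linear_combination -e2
        have s3 : Q1 * z2 = Q2 * z1 := by linear_combination -e3
        calc Q1 ^ 2 * Q2 = (Q1 * p2) * (Q1 * z2) - (Q1 * r2) ^ 2 := by rw [hQQ2]; ring
          _ = (Q2 * p1) * (Q2 * z1) - (Q2 * r1) ^ 2 := by rw [s1, s2, s3]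
          _ = Q2 ^ 2 * Q1 := by rw [hQQ1]; ring
      linear_combination k1
    rcases mul_eq_zero.1 k with k1 | k1
    · have k2 : Q2 = 0 := (mul_eq_zero.1 k1).resolve_left h0
      rw [k2] at e1 e2 e3
      apply hb02
      have s1 : p2 = 0 := (mul_eq_zero.1 (by linear_combination -e1 : Q1 * p2 = 0)).resolve_left h0
      have s2 : r2 = 0 := (mul_eq_zero.1 (by linear_combination -e2 : Q1 * r2 = 0)).resolve_left h0
      have s3 : z2 = 0 := (mul_eq_zero.1 (by linear_combination -e3 : Q1 * z2 = 0)).resolve_left h0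
      exact Prod.ext (sub_eq_zero.1 s1) (Prod.ext (sub_eq_zero.1 s2) (sub_eq_zero.1 s3))
    · have k2 : Q2 = Q1 := (sub_eq_zero.1 k1).symm
      rw [k2] at e1 e2 e3
      apply hb12
      have s1 : p1 - p2 = 0 :=
        (mul_eq_zero.1 (by linear_combination e1 : Q1 * (p1 - p2) = 0)).resolve_left h0
      have s2 : r1 - r2 = 0 :=
        (mul_eq_zero.1 (by linear_combination e2 : Q1 * (r1 - r2) = 0)).resolve_left h0
      have s3 : z1 - z2 = 0 :=
        (mul_eq_zero.1 (by linear_combination e3 : Q1 * (z1 - z2) = 0)).resolve_left h0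
      refine Prod.ext ?_ (Prod.ext ?_ ?_)
      · linear_combination s1
      · linear_combination s2
      · linear_combination s3

end Pool.Agent.XT
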