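import Pool.Agent.helper3.XT.Spec

set_option autoImplicit false

namespace Pool.Agent.XT

open Finset SimpleGraph

theorem CYG_adj {X Y : Type} {R : X → Y → Prop} {a b : X ⊕ Y} (h : (GL.Gr R).Adj a b) :
    (∃ x y, a = Sum.inl x ∧ b = Sum.inr y ∧ R x y) ∨
      (∃ x y, b = Sum.inl x ∧ a = Sum.inr y ∧ R x y) := by
  rw [GL.Gr, SimpleGraph.fromRel_adj] at h
  exact h.2

theorem CYG_l {X Y : Type} {R : X → Y → Prop} {a b : X ⊕ Y} (h : (GL.Gr R).Adj a b) (x : X)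
    (ha : a = Sum.inl x) : ∃ y, b = Sum.inr y ∧ R x y := by
  subst ha
  rcases CYG_adj h with ⟨x', y, h1, h2, h3⟩ | ⟨x', y, h1, h2, h3⟩
  · cases h1
    exact ⟨y, h2, h3⟩
  · cases h2

theorem CYG_r {X Y : Type} {R : X → Y → Prop} {a b : X ⊕ Y} (h : (GL.Gr R).Adj a b) (y : Y)
    (ha : a = Sum.inr y) : ∃ x, b = Sum.inl x ∧ R x y := by
  subst ha
  rcases CYG_adj h with ⟨x', y', h1, h2, h3⟩ | ⟨x', y', h1, h2, h3⟩
  · cases h1
  · cases h2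
    exact ⟨x', h1, h3⟩

theorem CYG_no4 (n : ℕ) (B : FS n) (hB : G8 B) (v0 v1 v2 v3 : Fin n ⊕ Fin n) (p : Fin n)
    (hp : v0 = Sum.inl p) (h02 : v0 ≠ v2) (h13 : v1 ≠ v3)
    (h01 : (GL.Gr (fun u v : Fin n => (u, v) ∈ B)).Adj v0 v1)
    (h12 : (GL.Gr (fun u v : Fin n => (u, v) ∈ B)).Adj v1 v2)
    (h23 : (GL.Gr (fun u v : Fin n => (u, v) ∈ B)).Adj v2 v3)
    (h30 : (GL.Gr (fun u v : Fin n => (u, v) ∈ B)).Adj v3 v0) : False := by
  obtain ⟨l, hl, e1⟩ := CYG_l h01 p hp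
  obtain ⟨q, hq, e2⟩ := CYG_r h12 l hl
  obtain ⟨m, hm, e3⟩ := CYG_l h23 q hq
  obtain ⟨p', hp', e4⟩ := CYG_r h30 m hm
  rw [hp] at hp'
  cases hp'
  rcases hB.c4 p q l m e1 e2 e4 e3 with h | h
  · exact h02 (by rw [hp, hq, h])
  · exact h13 (by rw [hl, hm, h])

theorem CYG_no6 (n : ℕ) (B : FS n) (hB : G8 B) (v0 v1 v2 v3 v4 v5 : Fin n ⊕ Fin n) (p : Fin n)
    (hp : v0 = Sum.inl p) (h02 : v0 ≠ v2) (h24 : v2 ≠ v4) (h04 : v0 ≠ v4) (h13 : v1 ≠ v3)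
    (h01 : (GL.Gr (fun u v : Fin n => (u, v) ∈ B)).Adj v0 v1)
    (h12 : (GL.Gr (fun u v : Fin n => (u, v) ∈ B)).Adj v1 v2)
    (h23 : (GL.Gr (fun u v : Fin n => (u, v) ∈ B)).Adj v2 v3)
    (h34 : (GL.Gr (fun u v : Fin n => (u, v) ∈ B)).Adj v3 v4)
    (h45 : (GL.Gr (fun u v : Fin n => (u, v) ∈ B)).Adj v4 v5)
    (h50 : (GL.Gr (fun u v : Fin n => (u, v) ∈ B)).Adj v5 v0) : False := by
  obtain ⟨l, hl, e1⟩ := CYG_l h01 p hp
  obtain ⟨q, hq, e2⟩ := CYG_r h12 l hl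
  obtain ⟨m, hm, e3⟩ := CYG_l h23 q hq
  obtain ⟨r, hr, e4⟩ := CYG_r h34 m hm
  obtain ⟨k, hk, e5⟩ := CYG_l h45 r hr
  obtain ⟨p', hp', e6⟩ := CYG_r h50 k hk
  rw [hp] at hp'
  cases hp'
  have := hB.c6 p q r l m k e1 e2 e3 e4 e5 e6 (fun h => h02 (by rw [hp, hq, h]))
    (fun h => h24 (by rw [hq, hr, h])) (fun h => h04 (by rw [hp, hr, h]))
  exact h13 (by rw [hl, hm, this.1])

theorem CYG : CYG_stmt := by
  intro n B hB
  constructor
  · rintro ⟨f⟩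
    have hne : ∀ i j : Fin 4, i ≠ j → f i ≠ f j := fun i j h e => h (f.injective e)
    have hadj : ∀ i j : Fin 4, (cycleGraph 4).Adj i j →
        (GL.Gr (fun u v : Fin n => (u, v) ∈ B)).Adj (f i) (f j) := fun i j h => f.toHom.map_adj h
    have a01 := hadj 0 1 (by decide)
    have a12 := hadj 1 2 (by decide)
    have a23 := hadj 2 3 (by decide)
    have a30 := hadj 3 0 (by decide)
    rcases h : f 0 with p | l
    · exact CYG_no4 n B hB _ _ _ _ p h (hne 0 2 (by decide)) (hne 1 3 (by decide)) a01 a12 a23 a30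
    · obtain ⟨p, hp, -⟩ := CYG_r a01 l h
      exact CYG_no4 n B hB _ _ _ _ p hp (hne 1 3 (by decide)) (hne 2 0 (by decide)) a12 a23 a30 a01
  · rintro ⟨f⟩
    have hne : ∀ i j : Fin 6, i ≠ j → f i ≠ f j := fun i j h e => h (f.injective e)
    have hadj : ∀ i j : Fin 6, (cycleGraph 6).Adj i j →
        (GL.Gr (fun u v : Fin n => (u, v) ∈ B)).Adj (f i) (f j) := fun i j h => f.toHom.map_adj h
    have a01 := hadj 0 1 (by decide)
    have a12 := hadj 1 2 (by decide)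
    have a23 := hadj 2 3 (by decide)
    have a34 := hadj 3 4 (by decide)
    have a45 := hadj 4 5 (by decide)
    have a50 := hadj 5 0 (by decide)
    rcases h : f 0 with p | l
    · exact CYG_no6 n B hB _ _ _ _ _ _ p h (hne 0 2 (by decide)) (hne 2 4 (by decide))
        (hne 0 4 (by decide)) (hne 1 3 (by decide)) a01 a12 a23 a34 a45 a50
    · obtain ⟨p, hp, -⟩ := CYG_r a01 l h
      exact CYG_no6 n B hB _ _ _ _ _ _ p hp (hne 1 3 (by decide)) (hne 3 5 (by decide))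
        (hne 1 5 (by decide)) (hne 2 4 (by decide)) a12 a23 a34 a45 a50 a01

end Pool.Agent.XT
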